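import Mathlib

/-!
The variety of semigroups generated by the grammic monoid of rank `n` has the form `var(F)` or
`var(F) ∨ Com` with `F` a finite monoid exactly when `n = 1`.
-/

namespace Pool.Agent.Results.MP_2928c2_al.NoFiniteMonoid

universe u v

/-! ### Identities and varieties of semigroups -/

/-- The semigroup `S` satisfies the identity `p.1 = p.2`, whose sides are non-empty words over a
countable alphabet. -/
def Satisfies (S : Type u) [Semigroup S] (p : FreeSemigroup ℕ × FreeSemigroup ℕ) : Prop :=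
  ∀ f : ℕ → S, FreeSemigroup.lift f p.1 = FreeSemigroup.lift f p.2

/-- `var S`: the class of all semigroups satisfying every identity that holds in `S`. -/
def Var (S : Type u) [Semigroup S] : Set Semigrp.{v} :=
  {T : Semigrp.{v} | ∀ p, Satisfies S p → Satisfies T p}

/-- A class of semigroups is a variety if it is defined by a set of identities. -/
def IsVariety (V : Set Semigrp.{v}) : Prop :=
  ∃ I : Set (FreeSemigroup ℕ × FreeSemigroup ℕ), V = {T : Semigrp.{v} | ∀ p ∈ I, Satisfies T p}

/-- The variety of commutative semigroups. -/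
def Com : Set Semigrp.{v} := {T : Semigrp.{v} | ∀ a b : T, a * b = b * a}

/-- `U ∨ W`: the smallest variety containing both `U` and `W`. -/
def Join (U W : Set Semigrp.{v}) : Set Semigrp.{v} :=
  {T : Semigrp.{v} | ∀ V : Set Semigrp.{v}, IsVariety V → U ⊆ V → W ⊆ V → T ∈ V}

/-! ### The grammic monoid -/

/-- `ell p q w`: the largest length of a weakly increasing subsequence of `w` all of whose letters
lie in `{p, …, q}`. -/
noncomputable def ell {n : ℕ} (p q : Fin n) (w : List (Fin n)) : ℕ :=
  sSup {k | ∃ s : List (Fin n), s.Sublist w ∧ s.Pairwise (· ≤ ·) ∧ (∀ x ∈ s, p ≤ x ∧ x ≤ q) ∧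
    s.length = k}

section Ell

variable {n : ℕ} {p q : Fin n}

theorem ell_bdd (p q : Fin n) (w : List (Fin n)) :
    BddAbove {k | ∃ s : List (Fin n), s.Sublist w ∧ s.Pairwise (· ≤ ·) ∧
      (∀ x ∈ s, p ≤ x ∧ x ≤ q) ∧ s.length = k} :=
  ⟨w.length, by rintro k ⟨s, hs, -, -, rfl⟩; exact hs.length_le⟩

theorem le_ell {w s : List (Fin n)} (hs : s.Sublist w) (h1 : s.Pairwise (· ≤ ·))
    (h2 : ∀ x ∈ s, p ≤ x ∧ x ≤ q) : s.length ≤ ell p q w :=
  le_csSup (ell_bdd p q w) ⟨s, hs, h1, h2, rfl⟩

theorem exists_ell (p q : Fin n) (w : List (Fin n)) :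
    ∃ s : List (Fin n), s.Sublist w ∧ s.Pairwise (· ≤ ·) ∧ (∀ x ∈ s, p ≤ x ∧ x ≤ q) ∧
      s.length = ell p q w :=
  Nat.sSup_mem (s := {k | ∃ s : List (Fin n), s.Sublist w ∧ s.Pairwise (· ≤ ·) ∧
      (∀ x ∈ s, p ≤ x ∧ x ≤ q) ∧ s.length = k})
    ⟨0, [], List.nil_sublist _, List.Pairwise.nil, by simp, rfl⟩ (ell_bdd p q w)

theorem ell_le {w : List (Fin n)} {m : ℕ}
    (h : ∀ s : List (Fin n), s.Sublist w → s.Pairwise (· ≤ ·) → (∀ x ∈ s, p ≤ x ∧ x ≤ q) →
      s.length ≤ m) : ell p q w ≤ m := by
  obtain ⟨s, h1, h2, h3, h4⟩ := exists_ell p q w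
  rw [← h4]
  exact h s h1 h2 h3

end Ell

/-- The relation `≡`. -/
def Rel {n : ℕ} (u v : FreeMonoid (Fin n)) : Prop :=
  ∀ p q : Fin n, p ≤ q → ell p q u.toList = ell p q v.toList

theorem ell_append_le {n : ℕ} {u v u' v' : List (Fin n)}
    (hu : ∀ p q : Fin n, p ≤ q → ell p q u = ell p q u')
    (hv : ∀ p q : Fin n, p ≤ q → ell p q v = ell p q v') (p q : Fin n) (hpq : p ≤ q) :
    ell p q (u ++ v) ≤ ell p q (u' ++ v') := by
  apply ell_le
  intro s hs hsort hmem
  obtain ⟨s1, s2, rfl, h1, h2⟩ := List.sublist_append_iff.1 hs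
  -- the splitting letter
  obtain ⟨r, hpr, hrq, hr1, hr2⟩ : ∃ r : Fin n, p ≤ r ∧ r ≤ q ∧ (∀ x ∈ s1, x ≤ r) ∧
      (∀ x ∈ s2, r ≤ x) := by
    rw [List.pairwise_append] at hsort
    by_cases hs1 : s1 = []
    · subst hs1
      exact ⟨p, le_refl _, hpq, by simp, fun x hx => (hmem x (by simpa using hx)).1⟩
    · refine ⟨s1.getLast hs1, (hmem _ ?_).1, (hmem _ ?_).2, ?_, ?_⟩
      · exact List.mem_append_left _ (List.getLast_mem hs1)
      · exact List.mem_append_left _ (List.getLast_mem hs1)
      · intro x hx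
        have h3 := hsort.1
        rw [← List.dropLast_append_getLast hs1, List.mem_append] at hx
        rcases hx with hx | hx
        · rw [← List.dropLast_append_getLast hs1, List.pairwise_append] at h3
          exact h3.2.2 x hx _ (by simp)
        · rw [List.mem_singleton] at hx
          exact hx.le
      · intro x hx
        exact hsort.2.2 _ (List.getLast_mem hs1) x hx
  rw [List.pairwise_append] at hsort
  have e1 : s1.length ≤ ell p r u' := by
    rw [← hu p r hpr]
    exact le_ell h1 hsort.1 fun x hx => ⟨(hmem x (List.mem_append_left _ hx)).1, hr1 x hx⟩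
  have e2 : s2.length ≤ ell r q v' := by
    rw [← hv r q hrq]
    exact le_ell h2 hsort.2.1 fun x hx => ⟨hr2 x hx, (hmem x (List.mem_append_right _ hx)).2⟩
  obtain ⟨t1, a1, a2, a3, a4⟩ := exists_ell p r u'
  obtain ⟨t2, b1, b2, b3, b4⟩ := exists_ell r q v'
  have e3 : (t1 ++ t2).length ≤ ell p q (u' ++ v') := by
    apply le_ell (a1.append b1)
    · rw [List.pairwise_append]
      exact ⟨a2, b2, fun x hx y hy => (a3 x hx).2.trans (b3 y hy).1⟩
    · intro x hx
      rcases List.mem_append.1 hx with hx | hx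
      · exact ⟨(a3 x hx).1, (a3 x hx).2.trans hrq⟩
      · exact ⟨hpr.trans (b3 x hx).1, (b3 x hx).2⟩
  rw [List.length_append] at e3 ⊢
  omega

/-- `≡` is a congruence on the free monoid. -/
def grammicCon (n : ℕ) : Con (FreeMonoid (Fin n)) where
  r := Rel
  iseqv := ⟨fun _ _ _ _ => rfl, fun h p q hpq => (h p q hpq).symm,
    fun h h' p q hpq => (h p q hpq).trans (h' p q hpq)⟩
  mul' := by
    intro u u' v v' hu hv p q hpq
    exact le_antisymm (ell_append_le hu hv p q hpq)
      (ell_append_le (fun p q h => (hu p q h).symm) (fun p q h => (hv p q h).symm) p q hpq)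

/-- The grammic monoid of rank `n`: the quotient of the free monoid on `n` ordered letters by the
congruence `≡`. -/
abbrev Grammic (n : ℕ) : Type := (grammicCon n).Quotient

/-! ### Computing `ell` for two adjacent letters -/

section Two

variable {n : ℕ} (a b : Fin n)

/-- recursive computation of `ell a b` -/
def E : List (Fin n) → ℕ
  | [] => 0
  | x :: w => if x = a then 1 + E w else if x = b then max (E w) (1 + w.count b) else E w

theorem E_mono (x : Fin n) (w : List (Fin n)) : E a b w ≤ E a b (x :: w) := by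
  rw [E]; split_ifs <;> omega

theorem le_E (hab : ∀ x, a ≤ x → x ≤ b → x = a ∨ x = b) (hne : a < b) (w s : List (Fin n))
    (hs : s.Sublist w) (h1 : s.Pairwise (· ≤ ·)) (h2 : ∀ x ∈ s, a ≤ x ∧ x ≤ b) :
    s.length ≤ E a b w := by
  induction hs with
  | slnil => simp
  | cons x _ ih => exact (ih h1 h2).trans (E_mono a b x _)
  | cons_cons x hs ih =>
    rename_i s' w'
    rw [List.pairwise_cons] at h1
    have h3 := ih h1.2 fun y hy => h2 y (List.mem_cons_of_mem _ hy)
    have hx := h2 x (by simp)
    rcases hab x hx.1 hx.2 with rfl | rfl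
    · rw [E, if_pos rfl, List.length_cons]; omega
    · rw [E, if_neg (ne_of_gt hne), if_pos rfl, List.length_cons]
      have h4 : ∀ y ∈ s', y = x := fun y hy =>
        le_antisymm (h2 y (List.mem_cons_of_mem _ hy)).2 (h1.1 y hy)
      have h5 : s' = List.replicate s'.length x := List.eq_replicate_iff.2 ⟨rfl, h4⟩
      have h6 : s'.length ≤ w'.count x := by
        rw [← List.replicate_sublist_iff, ← h5]
        exact hs
      omega

theorem exists_E (hne : a < b) (w : List (Fin n)) :
    ∃ s : List (Fin n), s.Sublist w ∧ s.Pairwise (· ≤ ·) ∧ (∀ x ∈ s, a ≤ x ∧ x ≤ b) ∧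
      s.length = E a b w := by
  induction w with
  | nil => exact ⟨[], by simp, by simp, by simp, rfl⟩
  | cons x w ih =>
    obtain ⟨s, h1, h2, h3, h4⟩ := ih
    rw [E]
    split_ifs with hx hx'
    · subst hx
      refine ⟨x :: s, h1.cons_cons _, List.pairwise_cons.2 ⟨fun y hy => (h3 y hy).1, h2⟩, ?_, ?_⟩
      · intro y hy
        rcases List.mem_cons.1 hy with rfl | hy
        · exact ⟨le_refl _, hne.le⟩
        · exact h3 y hy
      · rw [List.length_cons]; omega
    · subst hx'
      rcases le_total (E a x w) (1 + w.count x) with h | h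
      · rw [max_eq_right h]
        refine ⟨List.replicate (1 + w.count x) x, ?_, ?_, ?_, by simp⟩
        · rw [List.replicate_sublist_iff, List.count_cons_self]; omega
        · rw [List.pairwise_replicate]; right; exact le_refl _
        · intro y hy
          rw [List.mem_replicate] at hy
          rw [hy.2]
          exact ⟨hne.le, le_refl _⟩
      · rw [max_eq_left h]
        exact ⟨s, h1.cons _, h2, h3, h4⟩
    · exact ⟨s, h1.cons _, h2, h3, h4⟩

theorem ell_eq_E (hab : ∀ x, a ≤ x → x ≤ b → x = a ∨ x = b) (hne : a < b) (w : List (Fin n)) :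
    ell a b w = E a b w := by
  apply le_antisymm
  · exact ell_le fun s h1 h2 h3 => le_E a b hab hne w s h1 h2 h3
  · obtain ⟨s, h1, h2, h3, h4⟩ := exists_E a b hne w
    rw [← h4]
    exact le_ell h1 h2 h3

/-- `(a a b)^k w` -/
def blkA : ℕ → List (Fin n) → List (Fin n)
  | 0, w => w
  | k + 1, w => a :: a :: b :: blkA k w

/-- `(b b)^k w` -/
def blkB : ℕ → List (Fin n) → List (Fin n)
  | 0, w => w
  | k + 1, w => b :: b :: blkB k w

theorem count_le_E (w : List (Fin n)) : w.count b ≤ E a b w := by
  induction w with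
  | nil => simp
  | cons x w ih =>
    rw [List.count_cons, E]
    split_ifs <;> simp_all <;> omega

variable {a b}

theorem countA (hne : a < b) (k : ℕ) (w : List (Fin n)) :
    (blkA a b k w).count b = w.count b + k := by
  induction k with
  | zero => rfl
  | succ k ih =>
    rw [blkA, List.count_cons_of_ne (ne_of_lt hne), List.count_cons_of_ne (ne_of_lt hne),
      List.count_cons_self, ih]
    omega

theorem countB (k : ℕ) (w : List (Fin n)) : (blkB b k w).count b = w.count b + 2 * k := by
  induction k with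
  | zero => rfl
  | succ k ih =>
    rw [blkB, List.count_cons_self, List.count_cons_self, ih]
    omega

theorem E_A (hne : a < b) (k : ℕ) (w : List (Fin n)) :
    E a b (blkA a b (k + 1) w) = max (E a b w) (w.count b + 1) + 2 * (k + 1) := by
  induction k with
  | zero =>
    rw [blkA, blkA, E, if_pos rfl, E, if_pos rfl, E, if_neg (ne_of_gt hne), if_pos rfl]
    omega
  | succ k ih =>
    rw [blkA, E, if_pos rfl, E, if_pos rfl, E, if_neg (ne_of_gt hne), if_pos rfl, ih, countA hne]
    omega

theorem E_B (hne : a < b) (k : ℕ) (w : List (Fin n)) :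
    E a b (blkB b k w) = max (E a b w) (w.count b + 2 * k) := by
  induction k with
  | zero =>
    have := count_le_E a b w
    rw [blkB]
    omega
  | succ k ih =>
    rw [blkB, E, if_neg (ne_of_gt hne), if_pos rfl, E, if_neg (ne_of_gt hne), if_pos rfl, ih,
      List.count_cons_self, countB]
    omega

theorem blkA_eq (k : ℕ) (w : List (Fin n)) :
    FreeMonoid.ofList (blkA a b k w) = FreeMonoid.ofList [a, a, b] ^ k * FreeMonoid.ofList w := by
  induction k with
  | zero => simp [blkA]
  | succ k ih =>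
    rw [pow_succ', mul_assoc, ← ih]
    rfl

theorem blkB_eq (k : ℕ) (w : List (Fin n)) :
    FreeMonoid.ofList (blkB b k w) = FreeMonoid.ofList [b, b] ^ k * FreeMonoid.ofList w := by
  induction k with
  | zero => simp [blkB]
  | succ k ih =>
    rw [pow_succ', mul_assoc, ← ih]
    rfl

/-- the two sides of the separating identity have different invariants -/
theorem sides_ne (hab : ∀ x, a ≤ x → x ≤ b → x = a ∨ x = b) (hne : a < b) (K : ℕ) (hK : 1 ≤ K) :
    (((FreeMonoid.ofList [a, a, b] ^ (2 * K) * FreeMonoid.ofList [b, b] ^ K *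
      FreeMonoid.ofList [a, a, b] ^ K * FreeMonoid.ofList [b, b] ^ (2 * K) : FreeMonoid (Fin n)) :
        Grammic n)) ≠
    (((FreeMonoid.ofList [a, a, b] ^ K * FreeMonoid.ofList [b, b] ^ K *
      FreeMonoid.ofList [a, a, b] ^ (2 * K) * FreeMonoid.ofList [b, b] ^ (2 * K) :
        FreeMonoid (Fin n)) : Grammic n)) := by
  intro h
  have h1 : Rel _ _ := (Con.eq _).1 h
  have h2 := h1 a b hne.le
  have e1 : (FreeMonoid.ofList [a, a, b] ^ (2 * K) * FreeMonoid.ofList [b, b] ^ K *
      FreeMonoid.ofList [a, a, b] ^ K * FreeMonoid.ofList [b, b] ^ (2 * K) : FreeMonoid (Fin n)) =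
      FreeMonoid.ofList (blkA a b (2 * K) (blkB b K (blkA a b K (blkB b (2 * K) [])))) := by
    rw [blkA_eq, blkB_eq, blkA_eq, blkB_eq, FreeMonoid.ofList_nil, mul_one]
    simp only [mul_assoc]
  have e2 : (FreeMonoid.ofList [a, a, b] ^ K * FreeMonoid.ofList [b, b] ^ K *
      FreeMonoid.ofList [a, a, b] ^ (2 * K) * FreeMonoid.ofList [b, b] ^ (2 * K) :
        FreeMonoid (Fin n)) =
      FreeMonoid.ofList (blkA a b K (blkB b K (blkA a b (2 * K) (blkB b (2 * K) [])))) := by
    rw [blkA_eq, blkB_eq, blkA_eq, blkB_eq, FreeMonoid.ofList_nil, mul_one]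
    simp only [mul_assoc]
  rw [e1, e2, FreeMonoid.toList_ofList, FreeMonoid.toList_ofList, ell_eq_E a b hab hne,
    ell_eq_E a b hab hne] at h2
  obtain ⟨k, rfl⟩ : ∃ k, K = k + 1 := ⟨K - 1, by omega⟩
  have e3 : 2 * (k + 1) = (2 * k + 1) + 1 := by ring
  rw [e3] at h2
  simp only [E_A hne, E_B hne, countA hne, countB, E, List.count_nil] at h2
  omega

end Two

/-! ### The separating identity in finite semigroups -/

/-- `x^(k+1)` in a semigroup -/
def pw {S : Type u} [Semigroup S] (x : S) : ℕ → S
  | 0 => x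
  | k + 1 => x * pw x k

theorem map_pw {S : Type u} {T : Type v} [Semigroup S] [Semigroup T] (f : S →ₙ* T) (x : S)
    (k : ℕ) : f (pw x k) = pw (f x) k := by
  induction k with
  | zero => rfl
  | succ k ih => rw [pw, map_mul, ih]; rfl

theorem pw_eq {M : Type u} [Monoid M] (x : M) (k : ℕ) : pw x k = x ^ (k + 1) := by
  induction k with
  | zero => simp [pw]
  | succ k ih => rw [pw, ih, ← pow_succ']

/-- the identity `x^{2K} y^K x^K y^{2K} = x^K y^K x^{2K} y^{2K}` with `K = k + 1` -/
def idn (k : ℕ) : FreeSemigroup ℕ × FreeSemigroup ℕ :=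
  (pw (FreeSemigroup.of 0) (2 * k + 1) * pw (FreeSemigroup.of 1) k * pw (FreeSemigroup.of 0) k *
      pw (FreeSemigroup.of 1) (2 * k + 1),
    pw (FreeSemigroup.of 0) k * pw (FreeSemigroup.of 1) k * pw (FreeSemigroup.of 0) (2 * k + 1) *
      pw (FreeSemigroup.of 1) (2 * k + 1))

theorem lift_pw {S : Type u} [Semigroup S] (f : ℕ → S) (i k : ℕ) :
    FreeSemigroup.lift f (pw (FreeSemigroup.of i) k) = pw (f i) k := by
  rw [map_pw, FreeSemigroup.lift_of]

theorem exists_idempotent_power (M : Type u) [Monoid M] [Finite M] :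
    ∃ k : ℕ, ∀ x : M, x ^ (2 * (k + 1)) = x ^ (k + 1) := by
  have h1 : ∀ x : M, ∃ m : ℕ, 1 ≤ m ∧ x ^ (2 * m) = x ^ m := by
    intro x
    obtain ⟨i, j, hij, h⟩ := Finite.exists_ne_map_eq_of_infinite (fun k : ℕ => x ^ (k + 1))
    wlog hlt : i < j generalizing i j
    · exact this j i hij.symm h.symm (by omega)
    obtain ⟨p, hp⟩ : ∃ p, j = i + p ∧ 1 ≤ p := ⟨j - i, by omega⟩
    have h2 : ∀ m, i + 1 ≤ m → x ^ (m + p) = x ^ m := by
      intro m hm
      obtain ⟨c, rfl⟩ : ∃ c, m = (i + 1) + c := ⟨m - (i + 1), by omega⟩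
      have h3 : x ^ (i + 1) = x ^ (i + 1 + p) := by
        have : j + 1 = i + 1 + p := by omega
        rw [← this]; exact h
      calc x ^ (i + 1 + c + p) = x ^ (i + 1 + p) * x ^ c := by rw [← pow_add]; ring_nf
        _ = x ^ (i + 1) * x ^ c := by rw [h3]
        _ = x ^ (i + 1 + c) := by rw [← pow_add]
    have h4 : ∀ t m, i + 1 ≤ m → x ^ (m + t * p) = x ^ m := by
      intro t
      induction t with
      | zero => intro m _; simp
      | succ t ih =>
        intro m hm
        have : m + (t + 1) * p = (m + t * p) + p := by ring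
        rw [this, h2 _ (by omega), ih m hm]
    refine ⟨(i + 1) * p, Nat.mul_pos (by omega) (by omega), ?_⟩
    have h5 := h4 (i + 1) ((i + 1) * p) (Nat.le_mul_of_pos_right _ (by omega))
    rw [← h5]
    congr 1
    ring
  choose m hm hpow using h1
  have := Fintype.ofFinite M
  set K := ∏ x : M, m x with hK
  have hKpos : 1 ≤ K := Nat.one_le_iff_ne_zero.2
    (Finset.prod_ne_zero_iff.2 fun x _ => by have := hm x; omega)
  refine ⟨K - 1, fun x => ?_⟩
  rw [Nat.sub_add_cancel hKpos]
  obtain ⟨c, hc⟩ : m x ∣ K := Finset.dvd_prod_of_mem m (Finset.mem_univ x)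
  rw [hc, show 2 * (m x * c) = (2 * m x) * c by ring, pow_mul, hpow, ← pow_mul]

/-- Every finite semigroup satisfies one of the identities `idn k`. -/
theorem finite_satisfies (F : Type u) [Semigroup F] [Finite F] : ∃ k, Satisfies F (idn k) := by
  have : Finite (WithOne F) := inferInstanceAs (Finite (Option F))
  obtain ⟨k, hk⟩ := exists_idempotent_power (WithOne F)
  refine ⟨k, fun f => ?_⟩
  apply WithOne.coe_injective
  have h1 : ∀ (x : F) (j : ℕ), ((pw x j : F) : WithOne F) = (x : WithOne F) ^ (j + 1) := by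
    intro x j
    rw [← pw_eq]
    exact map_pw (WithOne.coeMulHom) x j
  simp only [idn, map_mul, lift_pw, WithOne.coe_mul, h1]
  have e : 2 * k + 1 + 1 = 2 * (k + 1) := by ring
  rw [e, hk, hk]

theorem com_satisfies (T : Semigrp.{v}) (hT : T ∈ Com) (k : ℕ) : Satisfies T (idn k) := by
  intro f
  simp only [idn, map_mul, lift_pw]
  have h : ∀ a b : T, a * b = b * a := hT
  set A := pw (f 0) (2 * k + 1)
  set B := pw (f 1) k
  set C := pw (f 0) k
  set D := pw (f 1) (2 * k + 1)
  congr 1
  rw [h (A * B) C, h A B, ← mul_assoc]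

/-- The grammic monoid of rank `n ≥ 2` satisfies none of these identities. -/
theorem grammic_not_satisfies (n : ℕ) (hn : 2 ≤ n) (k : ℕ) : ¬ Satisfies (Grammic n) (idn k) := by
  intro h
  let a : Fin n := ⟨0, by omega⟩
  let b : Fin n := ⟨1, by omega⟩
  have h1 := h (fun i => if i = 0 then ((FreeMonoid.ofList [a, a, b] : FreeMonoid (Fin n)) : Grammic n)
    else ((FreeMonoid.ofList [b, b] : FreeMonoid (Fin n)) : Grammic n))
  simp only [idn, map_mul, lift_pw, if_true, one_ne_zero, if_false, pw_eq] at h1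
  have e : 2 * k + 1 + 1 = 2 * (k + 1) := by ring
  rw [e] at h1
  refine sides_ne (a := a) (b := b) ?_ ?_ (k + 1) (by omega) ?_
  · intro x h1 h2
    have h2' : x.val ≤ 1 := h2
    rcases Nat.lt_or_ge x.val 1 with h3 | h3
    · left; apply Fin.ext; show x.val = 0; omega
    · right; apply Fin.ext; show x.val = 1; omega
  · show (0 : ℕ) < 1; norm_num
  · have hpow : ∀ (u : FreeMonoid (Fin n)) (m : ℕ),
        ((u ^ m : FreeMonoid (Fin n)) : Grammic n) = (u : Grammic n) ^ m :=
      fun u m => map_pow (grammicCon n).mk' u m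
    simp only [Con.coe_mul, hpow]
    exact h1

/-! ### Rank one -/

theorem grammic_one_comm (a b : Grammic 1) : a * b = b * a := by
  induction a using Con.induction_on with
  | _ u =>
  induction b using Con.induction_on with
  | _ w =>
  have h : u * w = w * u := by
    apply FreeMonoid.toList.injective
    apply List.ext_getElem
    · simp only [FreeMonoid.toList_mul, List.length_append]; omega
    · intro i h1 h2
      exact Subsingleton.elim _ _
  rw [← Con.coe_mul, h, Con.coe_mul]

theorem ell_one (w : List (Fin 1)) : ell 0 0 w = w.length := by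
  apply le_antisymm
  · exact ell_le fun s h1 _ _ => h1.length_le
  · refine le_ell (List.Sublist.refl _) ?_ ?_
    · rw [List.pairwise_iff_getElem]
      intro i j _ _ _
      exact le_of_eq (Subsingleton.elim _ _)
    · intro x _
      exact ⟨le_of_eq (Subsingleton.elim _ _), le_of_eq (Subsingleton.elim _ _)⟩

/-- the length homomorphism of the grammic monoid of rank one -/
theorem length_eq_of_grammic_one {u w : FreeMonoid (Fin 1)}
    (h : (u : Grammic 1) = (w : Grammic 1)) : u.toList.length = w.toList.length := by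
  have h1 : Rel _ _ := (Con.eq _).1 h
  have h2 := h1 0 0 le_rfl
  rwa [ell_one, ell_one] at h2

/-- the list of letters of a non-empty word -/
def letters (w : FreeSemigroup ℕ) : List ℕ := w.head :: w.tail

theorem letters_mul (u w : FreeSemigroup ℕ) : letters (u * w) = letters u ++ letters w := rfl

/-- An identity of the grammic monoid of rank one is balanced. -/
theorem perm_of_satisfies {p : FreeSemigroup ℕ × FreeSemigroup ℕ}
    (h : Satisfies (Grammic 1) p) : (letters p.1).Perm (letters p.2) := by
  rw [List.perm_iff_count]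
  intro i
  let g : ℕ → FreeMonoid (Fin 1) := fun j => if j = i then FreeMonoid.of 0 else 1
  have h1 := h (fun j => (g j : Grammic 1))
  have key : ∀ w : FreeSemigroup ℕ, ∃ u : FreeMonoid (Fin 1),
      FreeSemigroup.lift (fun j => (g j : Grammic 1)) w = (u : Grammic 1) ∧
      u.toList.length = (letters w).count i := by
    intro w
    induction w using FreeSemigroup.recOnMul with
    | ih1 j =>
      refine ⟨g j, by rw [FreeSemigroup.lift_of], ?_⟩
      show (g j).toList.length = [j].count i
      by_cases hj : j = i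
      · subst hj; simp [g]
      · simp [g, hj]
    | ih2 j w ih1 ih2 =>
      obtain ⟨u1, a1, a2⟩ := ih1
      obtain ⟨u2, b1, b2⟩ := ih2
      refine ⟨u1 * u2, ?_, ?_⟩
      · rw [map_mul, a1, b1, Con.coe_mul]
      · rw [letters_mul, List.count_append, FreeMonoid.toList_mul, List.length_append, a2, b2]
  obtain ⟨u1, a1, a2⟩ := key p.1
  obtain ⟨u2, b1, b2⟩ := key p.2
  rw [a1, b1] at h1
  rw [← a2, ← b2]
  exact length_eq_of_grammic_one h1

theorem com_of_perm {T : Type v} [Semigroup T] (hT : ∀ a b : T, a * b = b * a)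
    {p : FreeSemigroup ℕ × FreeSemigroup ℕ} (h : (letters p.1).Perm (letters p.2)) :
    Satisfies T p := by
  intro f
  let _ : CommSemigroup T := { (inferInstance : Semigroup T) with mul_comm := hT }
  apply WithOne.coe_injective
  have key : ∀ w : FreeSemigroup ℕ, ((FreeSemigroup.lift f w : T) : WithOne T) =
      ((letters w).map fun i => ((f i : T) : WithOne T)).prod := by
    intro w
    induction w using FreeSemigroup.recOnMul with
    | ih1 j =>
      show ((f j : T) : WithOne T) = [((f j : T) : WithOne T)].prod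
      simp
    | ih2 j w ih1 ih2 =>
      rw [map_mul, letters_mul, List.map_append, List.prod_append, ← ih1, ← ih2, WithOne.coe_mul]
  rw [key, key]
  exact (h.map _).prod_eq

theorem isVariety_var (S : Type u) [Semigroup S] : IsVariety (Var.{u, v} S) :=
  ⟨{p | Satisfies S p}, rfl⟩

theorem rank_one : Var.{0, v} (Grammic 1) = Join (Var.{0, v} Unit) Com := by
  apply Set.Subset.antisymm
  · intro T hT V _ _ hCom
    apply hCom
    intro a b
    have h1 : Satisfies (Grammic 1)
        (FreeSemigroup.of 0 * FreeSemigroup.of 1, FreeSemigroup.of 1 * FreeSemigroup.of 0) :=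
      fun f => by rw [map_mul, map_mul]; exact grammic_one_comm _ _
    have h2 := hT _ h1 (fun i => if i = 0 then a else b)
    simpa using h2
  · intro T hT
    refine hT _ (isVariety_var _) ?_ ?_
    · intro T' hT' p _ f
      have h1 := hT' (FreeSemigroup.of 0, FreeSemigroup.of 1) (fun _ => rfl)
      have h2 := h1 (fun i => if i = 0 then FreeSemigroup.lift f p.1 else FreeSemigroup.lift f p.2)
      simpa using h2
    · intro T' hT' p hp
      exact com_of_perm hT' (perm_of_satisfies hp)

/-- The class of all semigroups satisfying one identity is a variety. -/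
theorem isVariety_single (p : FreeSemigroup ℕ × FreeSemigroup ℕ) :
    IsVariety {T : Semigrp.{v} | Satisfies T p} :=
  ⟨{p}, by ext T; simp⟩

/-- **Main theorem.** Let `n ≥ 1`. There is a finite monoid `F` with `var(G_n) = var(F)` or
`var(G_n) = var(F) ∨ Com` if and only if `n = 1`; for `n ≥ 2` there is not even a finite
semigroup `F` of this kind. -/
theorem result (n : ℕ) (hn : 1 ≤ n) :
    ((∃ (F : Type) (_ : Monoid F), Finite F ∧
      (Var.{0, 0} (Grammic n) = Var F ∨ Var.{0, 0} (Grammic n) = Join (Var F) Com)) ↔ n = 1) ∧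
    (2 ≤ n → ∀ (F : Type) [Semigroup F] [Finite F],
      Var.{0, 0} (Grammic n) ≠ Var F ∧ Var.{0, 0} (Grammic n) ≠ Join (Var F) Com) := by
  have main : 2 ≤ n → ∀ (F : Type) [Semigroup F] [Finite F],
      Var.{0, 0} (Grammic n) ≠ Var F ∧ Var.{0, 0} (Grammic n) ≠ Join (Var F) Com := by
    intro h2 F _ _
    obtain ⟨k, hk⟩ := finite_satisfies F
    have hG : Semigrp.of (Grammic n) ∈ Var.{0, 0} (Grammic n) := fun p hp => hp
    constructor
    · intro h
      rw [h] at hG
      exact grammic_not_satisfies n h2 k (hG _ hk)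
    · intro h
      rw [h] at hG
      exact grammic_not_satisfies n h2 k (hG _ (isVariety_single (idn k)) (fun T hT => hT _ hk)
        (fun T hT => com_satisfies T hT k))
  refine ⟨⟨?_, ?_⟩, main⟩
  · rintro ⟨F, hF, hfin, h⟩
    by_contra h1
    obtain ⟨h3, h4⟩ := main (by omega) F
    rcases h with h | h
    · exact h3 h
    · exact h4 h
  · rintro rfl
    exact ⟨Unit, inferInstance, inferInstance, Or.inr rank_one⟩

end Pool.Agent.Results.MP_2928c2_al.NoFiniteMonoid
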